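import Pool.Agent.Helper17.SL.GoalsB

/-!
# Project SL, packet TRANSA
-/

namespace Pool.Agent.Helper17.SL.PkTRANSA

open Pool.Agent.Helper51.SigLeo Pool.Agent.Helper51.SixExp NumberField Module

universe u v w x

theorem exists_den {A B : Type*} [Fintype A] [Fintype B] (q : A → B → ℚ) :
    ∃ N : ℕ, 0 < N ∧ ∃ m : A → B → ℤ, ∀ a b, (N : ℚ) * q a b = m a b := by
  classical
  refine ⟨∏ a, ∏ b, (q a b).den, Finset.prod_pos fun a _ ↦ Finset.prod_pos fun b _ ↦ (q a b).den_pos,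
    ?_⟩
  have h : ∀ a b, ∃ z : ℤ, ((∏ a, ∏ b, (q a b).den : ℕ) : ℚ) * q a b = z := by
    intro a b
    have hd : (q a b).den ∣ ∏ a, ∏ b, (q a b).den :=
      (Finset.dvd_prod_of_mem (fun b ↦ (q a b).den) (Finset.mem_univ b)).trans
        (Finset.dvd_prod_of_mem (fun a ↦ ∏ b, (q a b).den) (Finset.mem_univ a))
    obtain ⟨c, hc⟩ := hd
    refine ⟨c * (q a b).num, ?_⟩
    rw [hc]
    have h1 := Rat.den_mul_eq_num (q a b)
    push_cast
    linear_combination (c : ℚ) * h1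
  choose m hm using h
  exact ⟨m, hm⟩

theorem thm (h1 : S_BB.{u, v}) : S_TRANSA.{u, v, w, x} := by
  intro p _ k _ _ _ _ _ Ω _ _ _ ι Λ E _ _ lam R _ b y hy hsum ε ι'
  classical
  set Bs := Module.finBasis ℚ E with hBs
  obtain ⟨N, hN, m, hm⟩ := exists_den (fun (r : R) (t : Fin (finrank ℚ E)) ↦ Bs.repr (b r) t)
  -- expansion of `N b_r`
  have hexp : ∀ r, (N : E) * b r = ∑ t, (m r t : E) * Bs t := by
    intro r
    have h2 := Bs.sum_repr (b r)
    calc (N : E) * b r = (N : E) * ∑ t, (Bs.repr (b r)) t • Bs t := by rw [h2]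
      _ = ∑ t, (m r t : E) * Bs t := by
        rw [Finset.mul_sum]
        refine Finset.sum_congr rfl fun t _ ↦ ?_
        have h3 : ((m r t : ℤ) : E) = (((N : ℚ) * (Bs.repr (b r)) t : ℚ) : E) := by
          rw [hm r t]; push_cast; rfl
        rw [h3, Rat.smul_def]
        push_cast
        ring
  have hN0 : (N : ℂ) ≠ 0 := by exact_mod_cast hN.ne'
  -- the units
  set U : Fin (finrank ℚ E) → Ωˣ := fun t ↦ ∏ r, y r ^ m r t with hU
  have hUu : ∀ t, IsUnitAlg (U t) := fun t ↦ IsUnitAlg.prod _ fun r _ ↦ (hy r).zpow _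
  have hLU : ∀ t, Λ.toFun (Units.map (ι : Ω →* k) (U t)) =
      ∑ r, (m r t : k) * Λ.toFun (Units.map (ι : Ω →* k) (y r)) := by
    intro t
    rw [hU]
    simp only []
    rw [map_prod, log_prod]
    refine Finset.sum_congr rfl fun r _ ↦ ?_
    rw [map_zpow, log_zpow]
  have hli : LinearIndependent ℚ (fun t ↦ lam (Bs t)) := by
    have := Bs.linearIndependent.map' (lam.toRatAlgHom.toLinearMap)
      (LinearMap.ker_eq_bot.2 lam.injective)
    exact this
  have hx0 : ∀ t, Λ.toFun (Units.map (ι : Ω →* k) (U t)) = 0 := by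
    refine h1 p k Ω ι Λ (finrank ℚ E) (fun t ↦ lam (Bs t))
      (fun t ↦ Λ.toFun (Units.map (ι : Ω →* k) (U t))) hli ?_ ?_
    · intro t
      exact ⟨1, one_pos, U t, hUu t, by simp⟩
    · have h4 : ∀ t, ι (lam (Bs t)) * Λ.toFun (Units.map (ι : Ω →* k) (U t)) =
          ∑ r, ι (lam ((m r t : E) * Bs t)) * Λ.toFun (Units.map (ι : Ω →* k) (y r)) := by
        intro t
        rw [hLU, Finset.mul_sum]
        refine Finset.sum_congr rfl fun r _ ↦ ?_
        simp only [map_mul, map_intCast]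
        ring
      rw [Finset.sum_congr rfl fun t _ ↦ h4 t, Finset.sum_comm]
      have h5 : ∀ r, ∑ t, ι (lam ((m r t : E) * Bs t)) * Λ.toFun (Units.map (ι : Ω →* k) (y r)) =
          (N : k) * (ι (lam (b r)) * Λ.toFun (Units.map (ι : Ω →* k) (y r))) := by
        intro r
        rw [← Finset.sum_mul, ← map_sum, ← map_sum, ← hexp r]
        simp only [map_mul, map_natCast]
        ring
      rw [Finset.sum_congr rfl fun r _ ↦ h5 r, ← Finset.mul_sum, hsum, mul_zero]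
  -- the archimedean logarithms
  have hlog : ∀ t, ∑ r, (m r t : ℝ) * Real.log ‖ι' (y r : Ω)‖ = 0 := by
    intro t
    obtain ⟨M, hM, hUM⟩ := torsion_of_log_eq_zero p ι Λ (U t) (hUu t) (hx0 t)
    have h6 : ‖ι' (U t : Ω)‖ ^ M = 1 := by
      rw [← norm_pow, ← map_pow, ← Units.val_pow_eq_pow_val, hUM]
      simp
    have h7 : ‖ι' (U t : Ω)‖ = 1 := (pow_eq_one_iff_of_nonneg (norm_nonneg _) hM.ne').1 h6
    have h8 : ‖ι' (U t : Ω)‖ = ∏ r, ‖ι' (y r : Ω)‖ ^ m r t := by
      rw [hU]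
      simp only []
      rw [Units.coe_prod, map_prod, norm_prod]
      refine Finset.prod_congr rfl fun r _ ↦ ?_
      rw [Units.val_zpow_eq_zpow_val, map_zpow₀, norm_zpow]
    have h9 : Real.log ‖ι' (U t : Ω)‖ = ∑ r, (m r t : ℝ) * Real.log ‖ι' (y r : Ω)‖ := by
      rw [h8, Real.log_prod]
      · refine Finset.sum_congr rfl fun r _ ↦ ?_
        rw [Real.log_zpow]
      · intro r _
        refine zpow_ne_zero _ (norm_ne_zero_iff.2 ?_)
        rw [map_ne_zero]
        exact (y r).ne_zero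
    rw [← h9, h7, Real.log_one]
  have key : (N : ℂ) * ∑ r, ε (b r) * ((Real.log ‖ι' (y r : Ω)‖ : ℝ) : ℂ) = 0 := by
    rw [Finset.mul_sum]
    have h10 : ∀ r, (N : ℂ) * (ε (b r) * ((Real.log ‖ι' (y r : Ω)‖ : ℝ) : ℂ)) =
        ∑ t, ε (Bs t) * ((m r t : ℂ) * ((Real.log ‖ι' (y r : Ω)‖ : ℝ) : ℂ)) := by
      intro r
      have h11 : (N : ℂ) * ε (b r) = ∑ t, (m r t : ℂ) * ε (Bs t) := by
        have := congrArg ε (hexp r)
        simpa only [map_mul, map_natCast, map_sum, map_intCast] using this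
      rw [← mul_assoc, h11, Finset.sum_mul]
      refine Finset.sum_congr rfl fun t _ ↦ ?_
      ring
    rw [Finset.sum_congr rfl fun r _ ↦ h10 r, Finset.sum_comm]
    refine Finset.sum_eq_zero fun t _ ↦ ?_
    rw [← Finset.mul_sum]
    have h12 : ∑ r, (m r t : ℂ) * ((Real.log ‖ι' (y r : Ω)‖ : ℝ) : ℂ) = 0 := by
      have := congrArg (fun z : ℝ ↦ (z : ℂ)) (hlog t)
      simpa using this
    rw [h12, mul_zero]
  exact (mul_eq_zero.1 key).resolve_left hN0

end Pool.Agent.Helper17.SL.PkTRANSA
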